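import Mathlib
import Pool.Agent.Helper65.SL.Base

/-! Project SL, module CHI: Christoffel symbols in other coordinates. -/

set_option maxSynthPendingDepth 3
set_option linter.unusedSectionVars false
set_option linter.deprecated false
set_option linter.unusedVariables false

namespace Pool.Agent.Helper41.SL

open Filter Topology
open scoped ContDiff Manifold
open Pool.Agent.Helper65.SL Pool.Agent.Helper23.Ric

variable {E : Type*} [NormedAddCommGroup E] [NormedSpace ℝ E] [FiniteDimensional ℝ E]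
variable {G : E → E →L[ℝ] E →L[ℝ] ℝ} {ψ : E → E} {z : E}

theorem pull_apply (y v w : E) : pull ψ G y v w = G (ψ y) (fderiv ℝ ψ y v) (fderiv ℝ ψ y w) := rfl

theorem contDiffAt_fderiv (hψ : ContDiffAt ℝ 3 ψ z) : ContDiffAt ℝ 2 (fderiv ℝ ψ) z :=
  hψ.fderiv_right (m := 2) (by norm_num)

theorem contDiffAt_pull (hψ : ContDiffAt ℝ 3 ψ z) (h : ContDiffAt ℝ 2 G (ψ z)) :
    ContDiffAt ℝ 2 (pull ψ G) z := by
  have h1 : ContDiffAt ℝ 2 (fun y => G (ψ y)) z := h.comp z (hψ.of_le (by norm_num))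
  have h0 := contDiffAt_fderiv hψ
  have h2 : ContDiffAt ℝ 2 (fun y => (G (ψ y)).comp (fderiv ℝ ψ y)) z := h1.clm_comp h0
  have h3 : ContDiffAt ℝ 2 (fun y => ((G (ψ y)).comp (fderiv ℝ ψ y)).flip) z :=
    (ContinuousLinearMap.flipₗᵢ ℝ E E ℝ).contDiff.contDiffAt.comp z h2
  have h4 : ContDiffAt ℝ 2 (fun y => (((G (ψ y)).comp (fderiv ℝ ψ y)).flip).comp (fderiv ℝ ψ y)) z :=
    h3.clm_comp h0
  exact (ContinuousLinearMap.flipₗᵢ ℝ E E ℝ).contDiff.contDiffAt.comp z h4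

/-- an injective derivative is invertible -/
theorem exists_inv {A : E →L[ℝ] E} (hA : Function.Injective A) : ∃ e : E ≃L[ℝ] E, (e : E →L[ℝ] E) = A := by
  have hA' : Function.Injective (A : E →ₗ[ℝ] E) := hA
  refine ⟨(LinearEquiv.ofInjectiveEndo (A : E →ₗ[ℝ] E) hA').toContinuousLinearEquiv, ?_⟩
  ext v
  rfl

theorem eventually_injective (hψ : ContDiffAt ℝ 3 ψ z) (hinj : Function.Injective (fderiv ℝ ψ z)) :
    ∀ᶠ y in 𝓝 z, Function.Injective (fderiv ℝ ψ y) := by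
  obtain ⟨e, he⟩ := exists_inv hinj
  have h1 : ContinuousAt (fderiv ℝ ψ) z := (contDiffAt_fderiv hψ).continuousAt
  have h2 : Set.range ((↑) : (E ≃L[ℝ] E) → (E →L[ℝ] E)) ∈ 𝓝 (fderiv ℝ ψ z) := by
    rw [← he]
    exact ContinuousLinearEquiv.nhds e
  filter_upwards [h1 h2] with y hy
  obtain ⟨f, hf⟩ := hy
  rw [← hf]
  exact f.injective

theorem good_pull (hψ : ContDiffAt ℝ 3 ψ z) (hinj : Function.Injective (fderiv ℝ ψ z))
    (h : GoodAt G (ψ z)) : GoodAt (pull ψ G) z := by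
  have hc : ContinuousAt ψ z := hψ.continuousAt
  refine ⟨contDiffAt_pull hψ h.smooth, ?_, ?_⟩
  · filter_upwards [hc.eventually h.symm] with y hy v w
    rw [pull_apply, pull_apply, hy]
  · filter_upwards [hc.eventually h.pos, eventually_injective hψ hinj] with y hy hy' v hv
    rw [pull_apply]
    apply hy
    intro h0
    exact hv (hy' (by rw [h0, map_zero]))

theorem fderiv_pull (hψ : ContDiffAt ℝ 3 ψ z) (hinj : Function.Injective (fderiv ℝ ψ z))
    (h : GoodAt G (ψ z)) (u v w : E) :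
    fderiv ℝ (pull ψ G) z u v w =
      fderiv ℝ G (ψ z) (fderiv ℝ ψ z u) (fderiv ℝ ψ z v) (fderiv ℝ ψ z w) +
      G (ψ z) (fderiv ℝ (fderiv ℝ ψ) z u v) (fderiv ℝ ψ z w) +
      G (ψ z) (fderiv ℝ ψ z v) (fderiv ℝ (fderiv ℝ ψ) z u w) := by
  have h1 := hasFDerivAt_apply2 (good_pull hψ hinj h) v w
  have hd : HasFDerivAt ψ (fderiv ℝ ψ z) z := (hψ.differentiableAt (by simp)).hasFDerivAt
  have hdd : HasFDerivAt (fderiv ℝ ψ) (fderiv ℝ (fderiv ℝ ψ) z) z :=
    ((contDiffAt_fderiv hψ).differentiableAt (by simp)).hasFDerivAt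
  have hG : HasFDerivAt (fun y => G (ψ y)) ((fderiv ℝ G (ψ z)).comp (fderiv ℝ ψ z)) z :=
    (differentiableAt_of_good h).hasFDerivAt.comp z hd
  have hv := hdd.clm_apply (hasFDerivAt_const v z)
  have hw := hdd.clm_apply (hasFDerivAt_const w z)
  have h2 := (hG.clm_apply hv).clm_apply hw
  have h3 := congrArg (fun L => L u) (h1.unique h2)
  simp only [ContinuousLinearMap.add_apply, ContinuousLinearMap.flip_apply,
    ContinuousLinearMap.comp_apply, ContinuousLinearMap.zero_apply, map_zero, zero_add] at h3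
  rw [h3]
  ring

/-- MODULE CHI (Christoffel symbols in other coordinates). -/
theorem chi (hψ : ContDiffAt ℝ 3 ψ z) (hinj : Function.Injective (fderiv ℝ ψ z))
    (h : GoodAt G (ψ z)) :
    GoodAt (pull ψ G) z ∧ ∀ v w, fderiv ℝ ψ z (chris (pull ψ G) z v w) =
      chris G (ψ z) (fderiv ℝ ψ z v) (fderiv ℝ ψ z w) + fderiv ℝ (fderiv ℝ ψ) z v w := by
  refine ⟨good_pull hψ hinj h, fun v w => ?_⟩
  obtain ⟨e, he⟩ := exists_inv hinj
  obtain ⟨x, hx⟩ : ∃ x, fderiv ℝ ψ z x =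
      chris G (ψ z) (fderiv ℝ ψ z v) (fderiv ℝ ψ z w) + fderiv ℝ (fderiv ℝ ψ) z v w := by
    have hsurj : Function.Surjective (fderiv ℝ ψ z) := by
      rw [← he]
      exact e.surjective
    exact hsurj _
  rw [← hx]
  congr 1
  symm
  apply chris_unique (good_pull hψ hinj h)
  intro u
  have hs := h.symm.self_of_nhds
  have hD : ∀ a b, fderiv ℝ (fderiv ℝ ψ) z a b = fderiv ℝ (fderiv ℝ ψ) z b a := by
    intro a b
    have h1 : IsSymmSndFDerivAt ℝ ψ z := hψ.isSymmSndFDerivAt (by simp; norm_num)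
    exact h1 a b
  rw [fderiv_pull hψ hinj h, fderiv_pull hψ hinj h, fderiv_pull hψ hinj h, pull_apply, hx, map_add,
    ContinuousLinearMap.add_apply, chris_spec h]
  rw [hD w v, hD v u, hD w u, hs (fderiv ℝ ψ z w) (fderiv ℝ (fderiv ℝ ψ) z u v)]
  ring

end Pool.Agent.Helper41.SL
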