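import Pool.Agent.Helper53.SL.St

/-!
# MP_9062f4_nt, project SL, module PIS: Pisot's theorem from the Hankel determinants
-/

set_option autoImplicit false

open Polynomial Filter Topology MeasureTheory Set
open Pool.Agent.Helper96.Salem (lm IsPisot)
open Pool.Agent.Helper53.SL

noncomputable section

namespace Pool.Agent.Helper41.SL

theorem sh_apply {K : Type} [CommRing K] (x : ℕ → K) (k : ℕ) : sh K x k = x (k + 1) := rfl

theorem sh_pow {K : Type} [CommRing K] (x : ℕ → K) (i k : ℕ) : ((sh K) ^ i) x k = x (k + i) := by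
  induction i generalizing k with
  | zero => simp
  | succ n ih =>
    rw [pow_succ', Module.End.mul_apply, sh_apply, ih]
    congr 1; ring

theorem aeval_sh {K : Type} [CommRing K] (f : K[X]) (x : ℕ → K) (k : ℕ) :
    (aeval (sh K) f x) k = f.sum fun i a => a * x (k + i) := by
  rw [aeval_eq_sum_range, Polynomial.sum_over_range _ (fun n => by simp)]
  simp [LinearMap.sum_apply, sh_pow]

theorem aeval_sh_map {K L : Type} [CommRing K] [CommRing L] (φ : K →+* L) (f : K[X]) (x : ℕ → K) :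
    aeval (sh L) (f.map φ) (fun k => φ (x k)) = fun k => φ ((aeval (sh K) f x) k) := by
  funext k
  have h0 : (f.map φ).natDegree < f.natDegree + 1 := Nat.lt_succ_of_le natDegree_map_le
  rw [aeval_sh, aeval_sh, Polynomial.sum_over_range' _ (fun n => by simp) (f.natDegree + 1) h0,
    Polynomial.sum_over_range _ (fun n => by simp), map_sum]
  exact Finset.sum_congr rfl fun i _ => by rw [coeff_map, map_mul]

theorem aeval_sh_pow {K : Type} [CommRing K] (f : K[X]) (a c : K) :
    aeval (sh K) f (fun k => a * c ^ k) = fun k => f.eval c * (a * c ^ k) := by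
  funext k
  rw [aeval_sh, Polynomial.eval_eq_sum, Polynomial.sum_def, Polynomial.sum_def, Finset.sum_mul]
  exact Finset.sum_congr rfl fun i _ => by rw [pow_add]; ring

theorem aeval_sh_tendsto (f : ℂ[X]) (e : ℕ → ℂ) (he : Tendsto e atTop (𝓝 0)) :
    Tendsto (aeval (sh ℂ) f e) atTop (𝓝 0) := by
  have h : (aeval (sh ℂ) f e) = fun k => ∑ i ∈ f.support, f.coeff i * e (k + i) := by
    funext k; rw [aeval_sh, Polynomial.sum_def]
  rw [h]
  have : (0 : ℂ) = ∑ i ∈ f.support, f.coeff i * 0 := by simp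
  rw [this]
  exact tendsto_finsetSum _ fun i _ => ((tendsto_add_atTop_iff_nat i).2 he).const_mul _

/-- `x k = lam c ^ k + e k`, `e → 0`: a polynomial which annihilates `x` vanishes at `c` -/
theorem root_of_ann (f : ℂ[X]) (lam c : ℂ) (hc : 1 ≤ ‖c‖) (hl : lam ≠ 0) (X' e : ℕ → ℂ)
    (hX : X' = (fun k => lam * c ^ k) + e) (he : Tendsto e atTop (𝓝 0)) (hf : aeval (sh ℂ) f X' = 0) :
    f.eval c = 0 := by
  rw [hX, map_add, aeval_sh_pow] at hf
  have h1 : ∀ k, f.eval c * (lam * c ^ k) = -(aeval (sh ℂ) f e) k := by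
    intro k
    have := congrFun hf k
    simp only [Pi.add_apply, Pi.zero_apply] at this
    linear_combination this
  have h2 : Tendsto (fun k => f.eval c * (lam * c ^ k)) atTop (𝓝 0) := by
    rw [show (fun k => f.eval c * (lam * c ^ k)) = fun k => -(aeval (sh ℂ) f e) k from funext h1]
    simpa using (aeval_sh_tendsto f e he).neg
  have h3 : ∀ k, ‖f.eval c * lam‖ ≤ ‖f.eval c * (lam * c ^ k)‖ := by
    intro k
    rw [norm_mul, norm_mul, norm_mul, norm_pow, ← mul_assoc]
    exact le_mul_of_one_le_right (by positivity) (one_le_pow₀ hc)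
  have h4 : ‖f.eval c * lam‖ ≤ 0 := ge_of_tendsto' (by simpa using h2.norm) h3
  have h5 : f.eval c * lam = 0 := norm_le_zero_iff.1 h4
  exact (mul_eq_zero.1 h5).resolve_right hl

theorem eps_tendsto (c lam K : ℝ) (x : ℕ → ℤ)
    (h : ∀ N : ℕ, ∑ k ∈ Finset.range N, ((x k : ℝ) - lam * c ^ k) ^ 2 ≤ K) :
    Tendsto (fun k => ((x k : ℝ) - lam * c ^ k)) atTop (𝓝 0) := by
  have h1 := (summable_of_sum_range_le (fun k => sq_nonneg _) h).tendsto_atTop_zero
  have h2 := (Real.continuous_sqrt.tendsto 0).comp h1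
  rw [Real.sqrt_zero] at h2
  refine (tendsto_zero_iff_abs_tendsto_zero _).2 ?_
  refine h2.congr fun k => ?_
  simp [Real.sqrt_sq_eq_abs]

/-- a complex polynomial which annihilates a nonzero rational sequence can be replaced by a rational one -/
theorem descend (ν' : ℂ[X]) (hν : ν' ≠ 0) (y : ℕ → ℚ) (h : aeval (sh ℂ) ν' (fun k => (y k : ℂ)) = 0) :
    ∃ g : ℚ[X], g ≠ 0 ∧ g.natDegree ≤ ν'.natDegree ∧ aeval (sh ℚ) g y = 0 := by
  have hlc : ν'.leadingCoeff ≠ 0 := leadingCoeff_ne_zero.2 hν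
  obtain ⟨φ, hφ⟩ : ∃ φ : Module.Dual ℚ ℂ, φ ν'.leadingCoeff ≠ 0 := by
    by_contra hcon
    push Not at hcon
    exact hlc ((Module.forall_dual_apply_eq_zero_iff ℚ ν'.leadingCoeff).1 hcon)
  let g : ℚ[X] := ∑ i ∈ Finset.range (ν'.natDegree + 1), monomial i (φ (ν'.coeff i))
  have hgc : ∀ j, g.coeff j = φ (ν'.coeff j) := by
    intro j
    simp only [g, finsetSum_coeff, coeff_monomial]
    rw [Finset.sum_ite_eq' (Finset.range (ν'.natDegree + 1)) j]
    split_ifs with hj
    · rfl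
    · rw [coeff_eq_zero_of_natDegree_lt (by simpa using hj), map_zero]
  have hgd : g.natDegree ≤ ν'.natDegree := by
    refine natDegree_le_iff_coeff_eq_zero.2 fun j hj => ?_
    rw [hgc, coeff_eq_zero_of_natDegree_lt hj, map_zero]
  refine ⟨g, ?_, hgd, ?_⟩
  · intro h0
    apply hφ
    have := hgc ν'.natDegree
    rw [h0, coeff_zero] at this
    exact this.symm
  · funext k
    have h1 := congrFun h k
    rw [aeval_sh, Polynomial.sum_over_range _ (fun n => by simp)] at h1
    rw [aeval_sh, Polynomial.sum_over_range' _ (fun n => by simp) (ν'.natDegree + 1) (by omega)]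
    have h2 := congrArg φ h1
    rw [map_sum] at h2
    simp only [Pi.zero_apply, map_zero] at h2
    rw [Pi.zero_apply, ← h2]
    refine Finset.sum_congr rfl fun i _ => ?_
    rw [hgc, show ν'.coeff i * ((y (k + i) : ℚ) : ℂ) = (y (k + i)) • ν'.coeff i by
      rw [Rat.smul_def]; ring, map_smul, smul_eq_mul, mul_comm]

theorem hPis (h1 : StHan) (h2 : StKro) (h3 : StFat) : StPis := by
  intro c lam K x hc hl hK
  have he := eps_tendsto c lam K x hK
  obtain ⟨b, hb0, hb⟩ := h2 (fun k => (x k : ℚ)) (h1 c lam K x hc hK)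
  obtain ⟨m, hm, hmx⟩ := h3 x ⟨b, hb0, hb⟩
  set E : ℕ → ℂ := fun k => (((x k : ℝ) - lam * c ^ k : ℝ) : ℂ) with hE
  set X' : ℕ → ℂ := fun k => ((x k : ℤ) : ℂ) with hX'
  have hEt : Tendsto E atTop (𝓝 0) := by
    have := (Complex.continuous_ofReal.tendsto 0).comp he
    rw [Complex.ofReal_zero] at this
    exact this
  have hXE : X' = (fun k => (lam : ℂ) * (c : ℂ) ^ k) + E := by
    funext k
    simp [hX', hE]
  have hcn : 1 ≤ ‖(c : ℂ)‖ := by
    rw [Complex.norm_real, Real.norm_eq_abs, abs_of_pos (by linarith)]; exact hc.le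
  have hlC : (lam : ℂ) ≠ 0 := by exact_mod_cast hl
  have key : ∀ f : ℂ[X], aeval (sh ℂ) f X' = 0 → f.eval (c : ℂ) = 0 := fun f hf =>
    root_of_ann f lam c hcn hlC X' E hXE hEt hf
  -- rational polynomials
  have hQX : ∀ f : ℚ[X], aeval (sh ℂ) (f.map (algebraMap ℚ ℂ)) X' =
      fun k => (((aeval (sh ℚ) f (fun k => (x k : ℚ))) k : ℚ) : ℂ) := by
    intro f
    have := aeval_sh_map (algebraMap ℚ ℂ) f (fun k => (x k : ℚ))
    simpa [hX'] using this
  have hint : IsIntegral ℤ c := by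
    refine ⟨m, hm, ?_⟩
    have h4 : aeval (sh ℂ) (m.map (Int.castRingHom ℂ)) X' = 0 := by
      have := aeval_sh_map (Int.castRingHom ℂ) m x
      rw [hmx] at this
      funext k
      have := congrFun this k
      simpa [hX'] using this
    have h5 := key _ h4
    rw [eval_map] at h5
    have h6 : ((eval₂ (algebraMap ℤ ℝ) c m : ℝ) : ℂ) = eval₂ (Int.castRingHom ℂ) (c : ℂ) m := by
      have := Polynomial.hom_eval₂ m (algebraMap ℤ ℝ) Complex.ofRealHom c
      rw [show (Complex.ofRealHom : ℝ →+* ℂ).comp (algebraMap ℤ ℝ) = Int.castRingHom ℂ from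
        RingHom.ext_int _ _] at this
      exact this
    rw [h5] at h6
    exact_mod_cast h6
  have hintQ : IsIntegral ℚ c := hint.tower_top
  have hirr : Irreducible (minpoly ℚ c) := minpoly.irreducible hintQ
  refine ⟨hint, hc, ?_⟩
  intro z hz hzc
  by_contra hnz
  push Not at hnz
  -- a nonzero polynomial of least degree which annihilates `x`
  let P : ℕ → Prop := fun d => ∃ f : ℚ[X], f ≠ 0 ∧ f.natDegree = d ∧ aeval (sh ℚ) f (fun k => (x k : ℚ)) = 0
  have hP : ∃ d, P d := ⟨b.natDegree, b, hb0, rfl, hb⟩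
  classical
  obtain ⟨ν, hν0, hνd, hν⟩ := Nat.find_spec hP
  have hmin : ∀ f : ℚ[X], f ≠ 0 → aeval (sh ℚ) f (fun k => (x k : ℚ)) = 0 → ν.natDegree ≤ f.natDegree := by
    intro f hf0 hf
    rw [hνd]
    exact Nat.find_min' hP ⟨f, hf0, rfl, hf⟩
  have hνc : aeval c ν = 0 := by
    have h4 : aeval (sh ℂ) (ν.map (algebraMap ℚ ℂ)) X' = 0 := by
      rw [hQX, hν]; funext k; simp
    have h5 := key _ h4
    rw [eval_map_algebraMap] at h5
    have h6 : ((aeval c ν : ℝ) : ℂ) = aeval (c : ℂ) ν := by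
      have := Polynomial.aeval_algebraMap_apply ℂ c ν
      exact this.symm
    rw [h5] at h6
    exact_mod_cast h6
  obtain ⟨ψ, hψ⟩ := minpoly.dvd ℚ c hνc
  have hψ0 : ψ ≠ 0 := by rintro rfl; rw [mul_zero] at hψ; exact hν0 hψ
  have hμ0 : minpoly ℚ c ≠ 0 := minpoly.ne_zero hintQ
  have hμd : 0 < (minpoly ℚ c).natDegree := minpoly.natDegree_pos hintQ
  set y : ℕ → ℚ := aeval (sh ℚ) ψ (fun k => (x k : ℚ)) with hy
  have hy0 : y ≠ 0 := by
    intro h0
    have := hmin ψ hψ0 h0
    rw [hψ, natDegree_mul hμ0 hψ0] at this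
    omega
  have hμy : aeval (sh ℚ) (minpoly ℚ c) y = 0 := by
    rw [hy, ← Module.End.mul_apply, ← map_mul, ← hψ, hν]
  -- factorization over `ℂ`
  set μC : ℂ[X] := (minpoly ℚ c).map (algebraMap ℚ ℂ) with hμC
  have hμC0 : μC ≠ 0 := by
    rw [hμC]; exact (Polynomial.map_ne_zero_iff (algebraMap ℚ ℂ).injective).2 hμ0
  have hrc : μC.IsRoot (c : ℂ) := by
    rw [IsRoot.def, hμC, eval_map_algebraMap]
    have := Polynomial.aeval_algebraMap_apply ℂ c (minpoly ℚ c)
    rw [minpoly.aeval, map_zero] at this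
    exact this
  obtain ⟨ρ1, hρ1⟩ := dvd_iff_isRoot.2 hrc
  have hrz : ρ1.IsRoot z := by
    have h4 : μC.eval z = 0 := by rw [hμC, eval_map_algebraMap]; exact hz
    rw [hρ1, eval_mul, eval_sub, eval_X, eval_C] at h4
    exact (mul_eq_zero.1 h4).resolve_left (sub_ne_zero.2 hzc)
  obtain ⟨ρ, hρ⟩ := dvd_iff_isRoot.2 hrz
  set ν' : ℂ[X] := (X - C (c : ℂ)) * ρ with hν'
  have hfac : μC = (X - C z) * ν' := by rw [hρ1, hρ, hν']; ring
  have hν'0 : ν' ≠ 0 := by
    intro h0; rw [h0, mul_zero] at hfac; exact hμC0 hfac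
  have hdeg : ν'.natDegree < (minpoly ℚ c).natDegree := by
    have h4 : μC.natDegree = (minpoly ℚ c).natDegree := natDegree_map _
    rw [← h4, hfac, natDegree_mul (X_sub_C_ne_zero z) hν'0, natDegree_X_sub_C]
    omega
  -- the sequence `w`
  set Y : ℕ → ℂ := fun k => (y k : ℂ) with hY
  have hYX : Y = aeval (sh ℂ) (ψ.map (algebraMap ℚ ℂ)) X' := by rw [hQX]
  have hμY : aeval (sh ℂ) μC Y = 0 := by
    have := aeval_sh_map (algebraMap ℚ ℂ) (minpoly ℚ c) y
    rw [hμy] at this
    funext k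
    have := congrFun this k
    simpa [hY, hμC] using this
  set w : ℕ → ℂ := aeval (sh ℂ) ν' Y with hw
  have hw1 : ∀ k, w (k + 1) = z * w k := by
    intro k
    have h4 : aeval (sh ℂ) (X - C z) w = 0 := by
      rw [hw, ← Module.End.mul_apply, ← map_mul, ← hfac, hμY]
    have h5 := congrFun h4 k
    rw [map_sub, aeval_X, aeval_C] at h5
    have h6 : w (k + 1) - z * w k = 0 := by
      simpa [sh_apply, Module.algebraMap_end_apply] using h5
    linear_combination h6
  have hwt : Tendsto w atTop (𝓝 0) := by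
    have h4 : w = aeval (sh ℂ) (ν' * ψ.map (algebraMap ℚ ℂ)) E := by
      rw [hw, hYX, ← Module.End.mul_apply, ← map_mul, hXE, map_add, aeval_sh_pow]
      have : (ν' * ψ.map (algebraMap ℚ ℂ)).eval (c : ℂ) = 0 := by
        rw [eval_mul, hν', eval_mul, eval_sub, eval_X, eval_C]; ring
      rw [this]
      funext k
      simp
    rw [h4]
    exact aeval_sh_tendsto _ _ hEt
  have hwp : ∀ k, w k = z ^ k * w 0 := by
    intro k
    induction k with
    | zero => simp
    | succ n ih => rw [hw1, ih, pow_succ]; ring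
  have hw0 : w 0 = 0 := by
    have h4 : ‖w 0‖ ≤ 0 := by
      refine ge_of_tendsto' (by simpa using hwt.norm) (fun k => ?_)
      rw [hwp k, norm_mul, norm_pow]
      exact le_mul_of_one_le_left (norm_nonneg _) (one_le_pow₀ hnz)
    exact norm_le_zero_iff.1 h4
  have hwz : w = 0 := by
    funext k; rw [hwp k, hw0, mul_zero]; rfl
  obtain ⟨g, hg0, hgd, hgy⟩ := descend ν' hν'0 y (by rw [← hwz])
  have hcop : IsCoprime (minpoly ℚ c) g := by
    refine (hirr.coprime_iff_not_dvd).2 fun hdvd => ?_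
    have := natDegree_le_of_dvd hdvd hg0
    omega
  obtain ⟨u, v, huv⟩ := hcop
  apply hy0
  have h4 : aeval (sh ℚ) (u * minpoly ℚ c + v * g) y = 0 := by
    rw [map_add, map_mul, map_mul, LinearMap.add_apply, Module.End.mul_apply, Module.End.mul_apply, hμy, hgy]
    simp
  rw [huv, map_one] at h4
  exact h4

end Pool.Agent.Helper41.SL

end
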